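import Pool.Agent.Lib.Goldbach.Upper

/-!
# The diameter of the sieved Goldbach graphs

For every set `P` of odd primes that are at most `n ^ (1 / K)`, the edge-intersection of the graphs
`G(p, n)`, `p ∈ P`, of problem `MP_443e5f_co` is connected with diameter at most `5`, and exactly
`5` as soon as `P` contains `3` and two further primes.
-/

namespace Pool.Agent.Results.MP_443e5f_co.SievedDiameterFive

open Pool.Agent.Goldbach

/-- Halves with two prescribed composite values. -/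
theorem exists_x {p q : ℕ} (hp : p.Prime) (hq : q.Prime) (hp2 : p ≠ 2) (hq2 : q ≠ 2)
    (hp3 : p ≠ 3) (hq3 : q ≠ 3) (hpq : p ≠ q) (e : ℤ) :
    ∃ x : ℕ, 6 * p * q ≤ x ∧ x < 12 * p * q ∧ (x : ℤ) % 2 = e % 2 ∧ ¬ 3 ∣ x ∧ p ∣ 2 * x + 3 ∧
      (q : ℤ) ∣ 2 * x - 3 := by
  classical
  have : Fact p.Prime := ⟨hp⟩
  have : Fact q.Prime := ⟨hq⟩
  obtain ⟨c, hc⟩ := Pool.Agent.Lib.Sieve.exists_crt {2, 3, p, q} (by
    intro r hr
    simp only [Finset.mem_insert, Finset.mem_singleton] at hr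
    rcases hr with rfl | rfl | rfl | rfl
    · exact Nat.prime_two
    · exact Nat.prime_three
    · exact hp
    · exact hq) (fun r => if r = 2 then (e : ZMod r) else if r = 3 then 1 else if r = p then
      -3 * (2 : ZMod r)⁻¹ else 3 * (2 : ZMod r)⁻¹)
  have hc2 := hc 2 (by simp)
  have hc3 := hc 3 (by simp)
  have hcp := hc p (by simp)
  have hcq := hc q (by simp)
  rw [if_pos rfl, ZMod.intCast_eq_intCast_iff, Int.modEq_iff_dvd] at hc2
  rw [if_neg (by norm_num), if_pos rfl] at hc3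
  rw [if_neg hp2, if_neg hp3, if_pos rfl] at hcp
  rw [if_neg hq2, if_neg hq3, if_neg hpq.symm] at hcq
  have hc3' : ((3 : ℕ) : ℤ) ∣ c - 1 := by
    rw [← ZMod.intCast_zmod_eq_zero_iff_dvd]
    push_cast
    rw [hc3]; ring
  have h2p : (2 : ZMod p) ≠ 0 := by
    intro h0
    have h1 : ((2 : ℕ) : ZMod p) = 0 := by exact_mod_cast h0
    rw [ZMod.natCast_eq_zero_iff] at h1
    exact hp2 ((Nat.prime_dvd_prime_iff_eq hp Nat.prime_two).mp h1)
  have h2q : (2 : ZMod q) ≠ 0 := by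
    intro h0
    have h1 : ((2 : ℕ) : ZMod q) = 0 := by exact_mod_cast h0
    rw [ZMod.natCast_eq_zero_iff] at h1
    exact hq2 ((Nat.prime_dvd_prime_iff_eq hq Nat.prime_two).mp h1)
  have hcp' : (p : ℤ) ∣ 2 * c + 3 := by
    rw [← ZMod.intCast_zmod_eq_zero_iff_dvd]
    push_cast
    rw [hcp]; field_simp; ring
  have hcq' : (q : ℤ) ∣ 2 * c - 3 := by
    rw [← ZMod.intCast_zmod_eq_zero_iff_dvd]
    push_cast
    rw [hcq]; field_simp; ring
  set m : ℤ := 6 * p * q with hm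
  have hm0 : 0 < m := by
    have := hp.pos
    have := hq.pos
    positivity
  have h1 := Int.emod_nonneg c hm0.ne'
  have h2 := Int.emod_lt_of_pos c hm0
  have h3 := Int.emod_add_mul_ediv c m
  obtain ⟨t, ht⟩ : ∃ t : ℤ, c % m + m = c + m * t := ⟨1 - c / m, by linarith⟩
  refine ⟨(c % m + m).toNat, ?_, ?_, ?_, ?_, ?_, ?_⟩
  · zify
    rw [Int.toNat_of_nonneg (by linarith)]
    linarith
  · zify
    rw [Int.toNat_of_nonneg (by linarith)]
    linarith
  · rw [Int.toNat_of_nonneg (by linarith), ht]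
    obtain ⟨s, hs⟩ := hc2
    have : m * t = 2 * (3 * p * q * t) := by rw [hm]; ring
    omega
  · zify
    rw [Int.toNat_of_nonneg (by linarith), ht]
    obtain ⟨s, hs⟩ := hc3'
    have : m * t = 3 * (2 * p * q * t) := by rw [hm]; ring
    omega
  · zify
    rw [Int.toNat_of_nonneg (by linarith), ht]
    have : 2 * (c + m * t) + 3 = (2 * c + 3) + p * (12 * q * t) := by rw [hm]; ring
    rw [this]
    exact dvd_add hcp' (Dvd.intro _ rfl)
  · rw [Int.toNat_of_nonneg (by linarith), ht]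
    have : 2 * (c + m * t) - 3 = (2 * c - 3) + q * (12 * p * t) := by rw [hm]; ring
    rw [this]
    exact dvd_add hcq' (Dvd.intro _ rfl)

theorem lower {P : Set ℕ} {n : ℕ} (hP : ∀ p ∈ P, p.Prime ∧ p ≠ 2) (h3 : 3 ∈ P) {p q : ℕ}
    (hp : p ∈ P) (hq : q ∈ P) (hp3 : p ≠ 3) (hq3 : q ≠ 3) (hpq : p ≠ q)
    (hn : 12 * p * q ≤ n) : 5 ≤ (interGraph P n).ediam := by
  obtain ⟨hpp, hp2⟩ := hP p hp
  obtain ⟨hqp, hq2⟩ := hP q hq
  obtain ⟨x, hx1, hx2, hx3, hx4, hx5, hx6⟩ := exists_x hpp hqp hp2 hq2 hp3 hq3 hpq 0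
  obtain ⟨y, hy1, hy2, hy3, hy4, hy5, hy6⟩ := exists_x hpp hqp hp2 hq2 hp3 hq3 hpq 1
  set S : Set ℕ := {m | Odd m ∧ ∀ r ∈ P, ¬ ∃ k, 1 < k ∧ m = r * k} with hS
  have hle : interGraph P n ≤ halfGraph (evenVertices n) S := by
    intro a b hab
    rw [interGraph, SimpleGraph.iInf_adj] at hab
    have h1 : ∀ r ∈ P, (modGraph r n).Adj a b := by
      intro r hr
      have := hab.1 r
      rw [SimpleGraph.iInf_adj] at this
      exact this.1 hr
    have h2 := h1 3 h3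
    refine ⟨hab.2, ⟨h2.2.1.1, fun r hr => (h1 r hr).2.1.2.2⟩,
      ⟨h2.2.2.1, fun r hr => (h1 r hr).2.2.2.2⟩⟩
  have hSS : ∀ r ∈ P, ∀ m : ℕ, r ∣ m → r < m → m ∉ S := by
    rintro r hr m ⟨k, hk⟩ hlt hm
    apply hm.2 r hr
    refine ⟨k, ?_, hk⟩
    by_contra hcon
    have : k = 0 ∨ k = 1 := by omega
    rcases this with h | h
    · rw [hk, h] at hlt; omega
    · rw [hk, h] at hlt; omega
  have hp1 := hpp.two_le
  have hq1 := hqp.two_le
  have hpq1 : p ≤ 6 * p * q := by nlinarith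
  have hpq2 : q ≤ 6 * p * q := by nlinarith
  have hpq4 : 24 ≤ 6 * p * q := by nlinarith
  have hxV : 2 * x ∈ evenVertices n := ⟨even_two_mul x, by omega, by omega⟩
  have hyV : 2 * y ∈ evenVertices n := ⟨even_two_mul y, by omega, by omega⟩
  have hx6' : q ∣ 2 * x - 3 := by
    have : ((2 * x - 3 : ℕ) : ℤ) = 2 * x - 3 := by omega
    rw [← this] at hx6
    exact_mod_cast hx6
  have hy6' : q ∣ 2 * y - 3 := by
    have : ((2 * y - 3 : ℕ) : ℤ) = 2 * y - 3 := by omega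
    rw [← this] at hy6
    exact_mod_cast hy6
  have h0V : (0 : ℕ) ∉ evenVertices n := by
    intro h
    have := h.2.1
    omega
  have key : 5 ≤ (halfGraph (evenVertices n) S).edist ⟨2 * x, hxV⟩ ⟨2 * y, hyV⟩ := by
    apply five_le_of_good (x := x) (y := y) (fun a ha => ha.1) (fun m hm => hm.1)
      ?_ rfl rfl hx4 (by omega) (hSS p hp _ hx5 (by omega)) (hSS q hq _ hx6' (by omega))
      (fun h => absurd h h0V) hy4 (by omega) (hSS p hp _ hy5 (by omega))
      (hSS q hq _ hy6' (by omega)) (fun h => absurd h h0V)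
      (Nat.odd_iff.mpr (by omega))
    rintro m hm ⟨k, hk⟩
    by_contra hne
    apply hm.2 3 h3
    refine ⟨k, ?_, hk⟩
    obtain ⟨l, hl⟩ := hm.1
    omega
  exact key.trans ((SimpleGraph.edist_anti hle).trans SimpleGraph.edist_le_ediam)

/-- There is an absolute constant `K` such that for every `n` and every nonempty set `P` of odd
primes `p` with `p ^ K ≤ n`, the edge-intersection of the graphs `G(p, n)`, `p ∈ P`, is connected
and has diameter at most `5`; if `P` contains `3` and two other primes, the diameter is `5`. -/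
theorem result : ∃ K : ℕ, ∀ (n : ℕ) (P : Set ℕ), P.Nonempty →
    (∀ p ∈ P, p.Prime ∧ p ≠ 2 ∧ p ^ K ≤ n) →
    (interGraph P n).Connected ∧ (interGraph P n).ediam ≤ 5 ∧
      (3 ∈ P → (∃ p ∈ P, ∃ q ∈ P, p ≠ 3 ∧ q ≠ 3 ∧ p ≠ q) → (interGraph P n).ediam = 5) := by
  obtain ⟨K, hK⟩ := Pool.Agent.Lib.Sieve.exists_avoid 4
  refine ⟨K + 6, fun n P hPne hP => ?_⟩
  -- the largest `z` with `z ^ (K + 6) ≤ n`
  set z := Nat.findGreatest (fun z => z ^ (K + 6) ≤ n) n with hz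
  have hle : ∀ p ∈ P, p ≤ z := by
    intro p hp
    obtain ⟨hpp, -, hpn⟩ := hP p hp
    refine Nat.le_findGreatest (P := fun z => z ^ (K + 6) ≤ n) ?_ hpn
    calc p = p ^ 1 := (pow_one p).symm
      _ ≤ p ^ (K + 6) := Nat.pow_le_pow_right hpp.pos (by omega)
      _ ≤ n := hpn
  have hzn : z ^ (K + 6) ≤ n := by
    obtain ⟨p, hp⟩ := hPne
    obtain ⟨hpp, -, hpn⟩ := hP p hp
    have hpn' : p ≤ n := by
      calc p = p ^ 1 := (pow_one p).symm
        _ ≤ p ^ (K + 6) := Nat.pow_le_pow_right hpp.pos (by omega)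
        _ ≤ n := hpn
    exact Nat.findGreatest_spec (P := fun z => z ^ (K + 6) ≤ n) hpn' hpn
  have hz3 : 3 ≤ z := by
    obtain ⟨p, hp⟩ := hPne
    obtain ⟨hpp, hp2, -⟩ := hP p hp
    have h1 := hle p hp
    have h2 := hpp.two_le
    omega
  have hPz : ∀ p ∈ P, p.Prime ∧ p ≠ 2 ∧ p ≤ z := fun p hp => ⟨(hP p hp).1, (hP p hp).2.1, hle p hp⟩
  have hn' : z ^ (K + 2) ≤ n := (Nat.pow_le_pow_right (by omega) (by omega)).trans hzn
  have hdiam := ediam_le_five hPz hK hz3 hn'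
  refine ⟨connected hPz hK hz3 hn', hdiam, ?_⟩
  rintro h3 ⟨p, hp, q, hq, hp3, hq3, hpq⟩
  apply le_antisymm hdiam
  apply lower (fun p hp => ⟨(hP p hp).1, (hP p hp).2.1⟩) h3 hp hq hp3 hq3 hpq
  have hz4 : 4 ≤ z := by
    have h1 := hle p hp
    have h2 := (hP p hp).1.two_le
    have h4 := (hP p hp).2.1
    omega
  calc 12 * p * q ≤ 12 * z * z := by
        have h1 := hle p hp
        have h2 := hle q hq
        exact Nat.mul_le_mul (Nat.mul_le_mul_left _ h1) h2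
    _ ≤ z ^ 4 := by nlinarith [Nat.mul_le_mul hz4 hz4, Nat.zero_le (z * z)]
    _ ≤ z ^ (K + 6) := Nat.pow_le_pow_right (by omega) (by omega)
    _ ≤ n := hzn

end Pool.Agent.Results.MP_443e5f_co.SievedDiameterFive
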