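import Pool.Agent.Lib.H18E.FN2

/-!
# Goldbach graphs: bounded distances outside a tiny exceptional set

For every `0 < a < 1/2` and all large `n`, in the finite Goldbach graph `G_n` and in the finite near
Goldbach graph `G(n)`, all but at most `n exp (-(log n)^a)` vertices are pairwise at distance at most
`9`. Together with all vertices of degree at least `n exp (-(log n)^a)` (and, in `G_n`, together with
the vertex `0` and the vertices `2 p`, `p` an odd prime) they are pairwise at distance at most `11`.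
-/

namespace Pool.Agent.Results.MP_443e5f_co.TinyExceptionalSet

open Finset Filter Pool.Agent.Goldbach Pool.Agent.Lib.H18E

theorem result (a : ℝ) (ha : 0 < a) (ha2 : a < 1 / 2) : ∃ n0 : ℕ, ∀ n ≥ n0,
    (∃ Γ : Set (goldbachVertices n), (Γᶜ.ncard : ℝ) ≤ n * Real.exp (-(Real.log n) ^ a) ∧
      (∀ u ∈ Γ, ∀ v ∈ Γ, (goldbachGraph n).edist u v ≤ 9) ∧
      ∀ u v : goldbachVertices n,
        (u ∈ Γ ∨ n * Real.exp (-(Real.log n) ^ a) ≤ ((goldbachGraph n).neighborSet u).ncard ∨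
          (u : ℕ) = 0 ∨ ∃ p : ℕ, p.Prime ∧ Odd p ∧ (u : ℕ) = 2 * p) →
        (v ∈ Γ ∨ n * Real.exp (-(Real.log n) ^ a) ≤ ((goldbachGraph n).neighborSet v).ncard ∨
          (v : ℕ) = 0 ∨ ∃ p : ℕ, p.Prime ∧ Odd p ∧ (v : ℕ) = 2 * p) →
        (goldbachGraph n).edist u v ≤ 11) ∧
    (∃ Γ : Set (evenVertices n), (Γᶜ.ncard : ℝ) ≤ n * Real.exp (-(Real.log n) ^ a) ∧
      (∀ u ∈ Γ, ∀ v ∈ Γ, (nearGoldbachGraph n).edist u v ≤ 9) ∧
      ∀ u v : evenVertices n,
        (u ∈ Γ ∨ n * Real.exp (-(Real.log n) ^ a) ≤ ((nearGoldbachGraph n).neighborSet u).ncard) →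
        (v ∈ Γ ∨ n * Real.exp (-(Real.log n) ^ a) ≤ ((nearGoldbachGraph n).neighborSet v).ncard) →
        (nearGoldbachGraph n).edist u v ≤ 11) := by
  obtain ⟨n0, h⟩ := fn_main2 a ha ha2
  refine ⟨n0, fun n hn => ⟨?_, ?_⟩⟩
  · have h0 : (0 : ℕ) ∈ goldbachVertices n := ⟨Even.zero, Nat.zero_le _⟩
    obtain ⟨Γ, h1, h2, h3⟩ := h n hn (goldbachVertices n) {p | p.Prime ∧ Odd p ∧ p < 2 * n}
      (fun a ha => ha)
      (fun x hx => by
        rw [Finset.mem_Icc] at hx
        exact ⟨even_two_mul x, by omega⟩)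
      (fun m h1 h2 h3 => ⟨h1, h2, h3⟩)
      (fun m hm => Or.inr ⟨hm.1, hm.2.1⟩)
    refine ⟨Γ, h1, h2, fun u v hu hv => h3 u v ?_ ?_⟩
    · rcases hu with hu | hu | hu | hu
      · exact Or.inl hu
      · exact Or.inr (Or.inl hu)
      · exact Or.inr (Or.inr (Or.inl hu))
      · exact Or.inr (Or.inr (Or.inr ⟨h0, hu⟩))
    · rcases hv with hv | hv | hv | hv
      · exact Or.inl hv
      · exact Or.inr (Or.inl hv)
      · exact Or.inr (Or.inr (Or.inl hv))
      · exact Or.inr (Or.inr (Or.inr ⟨h0, hv⟩))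
  · obtain ⟨Γ, h1, h2, h3⟩ := h n hn (evenVertices n)
      ({1} ∪ {p | p.Prime ∧ Odd p ∧ p < 2 * n})
      (fun a ha => ⟨ha.1, ha.2.2⟩)
      (fun x hx => by
        rw [Finset.mem_Icc] at hx
        exact ⟨even_two_mul x, by omega, by omega⟩)
      (fun m h1 h2 h3 => Or.inr ⟨h1, h2, h3⟩)
      (fun m hm => by
        rcases hm with hm | hm
        · exact Or.inl hm
        · exact Or.inr ⟨hm.1, hm.2.1⟩)
    refine ⟨Γ, h1, h2, fun u v hu hv => h3 u v ?_ ?_⟩
    · rcases hu with hu | hu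
      · exact Or.inl hu
      · exact Or.inr (Or.inl hu)
    · rcases hv with hv | hv
      · exact Or.inl hv
      · exact Or.inr (Or.inl hv)

end Pool.Agent.Results.MP_443e5f_co.TinyExceptionalSet
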